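import Mathlib

set_option autoImplicit false

namespace Pool.Agent.Results.MP_cbf971_pr.NotMonotone

open scoped ENNReal NNReal Topology
open MeasureTheory ProbabilityTheory Filter

/-- `jumpTime lam γ e n` is the time `T_n` of the `n`-th point (`T_0 = 0`, value `∞` if there is no
such point) of the point process with intensity `lam ((N_{t-} + γ) / (t + 1))`, built from the
standard exponential clocks `e 0, e 1, ...`:
`T_{n+1} = inf {t ≥ T_n : ∫_{T_n}^t lam ((n + γ) / (u + 1)) du ≥ e n}`. -/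
noncomputable def jumpTime (lam : ℝ → ℝ) (γ : ℝ) (e : ℕ → ℝ) : ℕ → ℝ≥0∞
  | 0 => 0
  | n + 1 => ⨅ (t : ℝ≥0) (_ : jumpTime lam γ e n ≤ t ∧
      e n ≤ ∫ u in (jumpTime lam γ e n).toReal..(t : ℝ), lam ((n + γ) / (u + 1))), (t : ℝ≥0∞)

/-- `N_t`, the number of points in `(0, t]`. -/
noncomputable def count (lam : ℝ → ℝ) (γ : ℝ) (e : ℕ → ℝ) (t : ℝ) : ℕ∞ :=
  Set.encard {n : ℕ | jumpTime lam γ e (n + 1) ≤ ENNReal.ofReal t}

/-- The law of a sequence of i.i.d. standard exponential random variables. -/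
noncomputable def expSeq : Measure (ℕ → ℝ) := Measure.infinitePi (fun _ : ℕ => expMeasure 1)

/-- `limProb lam x γ` is the probability that, started from the initial condition `γ`, the process
satisfies `N_t < ∞` for all `t` and `N_t / t → x`. -/
noncomputable def limProb (lam : ℝ → ℝ) (x γ : ℝ) : ℝ≥0∞ :=
  expSeq {e | (∀ t : ℝ, count lam γ e t ≠ ⊤) ∧
    Tendsto (fun t : ℝ => ((count lam γ e t).toNat : ℝ) / t) atTop (𝓝 x)}

/-- stable fixed points of `lam` -/
def IsStable (lam : ℝ → ℝ) (x : ℝ) : Prop :=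
  0 ≤ x ∧ lam x = x ∧ (∀ᶠ y in 𝓝[<] x, y < lam y) ∧ ∀ᶠ y in 𝓝[>] x, lam y < y

/-! ### The example -/

noncomputable def lam0 (z : ℝ) : ℝ := max 0 (1 - z) + min 1000 (max 0 (8000 * (z - 7 / 4)))

theorem lam0_cont : Continuous lam0 := by unfold lam0; fun_prop

theorem lam0_nonneg (z : ℝ) : 0 ≤ lam0 z := by
  unfold lam0
  have h1 : 0 ≤ max 0 (1 - z) := le_max_left _ _
  have h2 : 0 ≤ min 1000 (max 0 (8000 * (z - 7 / 4))) := le_min (by norm_num) (le_max_left _ _)
  linarith

theorem lam0_of_ge (z : ℝ) (h : 15 / 8 ≤ z) : lam0 z = 1000 := by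
  unfold lam0
  rw [max_eq_left (by linarith), max_eq_right (by linarith), min_eq_left (by linarith)]
  norm_num

theorem lam0_of_mid (z : ℝ) (h : 1 ≤ z) (h' : z ≤ 7 / 4) : lam0 z = 0 := by
  unfold lam0
  rw [max_eq_left (by linarith), max_eq_left (by linarith), min_eq_right (by norm_num)]
  norm_num

theorem lam0_of_le (z : ℝ) (h : z ≤ 1) : lam0 z = 1 - z := by
  unfold lam0
  rw [max_eq_right (by linarith), max_eq_left (by linarith), min_eq_right (by norm_num)]
  ring

theorem lam0_of_ramp (z : ℝ) (h : 7 / 4 ≤ z) (h' : z ≤ 15 / 8) : lam0 z = 8000 * (z - 7 / 4) := by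
  unfold lam0
  rw [max_eq_left (by linarith), max_eq_right (by linarith), min_eq_right (by linarith)]
  ring

theorem fixed_iff (z : ℝ) : lam0 z = z ↔ (z = 1 / 2 ∨ z = 14000 / 7999 ∨ z = 1000) := by
  constructor
  · intro h
    rcases le_or_gt z 1 with h1 | h1
    · rw [lam0_of_le z h1] at h; left; linarith
    rcases le_or_gt z (7 / 4) with h2 | h2
    · rw [lam0_of_mid z h1.le h2] at h; linarith
    rcases le_or_gt z (15 / 8) with h3 | h3
    · rw [lam0_of_ramp z h2.le h3] at h; right; left; linarith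
    · rw [lam0_of_ge z h3.le] at h; right; right; linarith
  · rintro (rfl | rfl | rfl)
    · rw [lam0_of_le _ (by norm_num)]; norm_num
    · rw [lam0_of_ramp _ (by norm_num) (by norm_num)]; norm_num
    · rw [lam0_of_ge _ (by norm_num)]

theorem stable_iff (z : ℝ) : IsStable lam0 z ↔ (z = 1 / 2 ∨ z = 1000) := by
  constructor
  · rintro ⟨-, hf, -, hr⟩
    rcases (fixed_iff z).mp hf with h | h | h
    · exact Or.inl h
    · exfalso
      have h1 : ∀ᶠ y in 𝓝[>] z, y < 15 / 8 :=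
        (eventually_lt_nhds (by rw [h]; norm_num)).filter_mono nhdsWithin_le_nhds
      have h2 : ∀ᶠ y in 𝓝[>] z, z < y := eventually_nhdsWithin_of_forall fun y hy => hy
      obtain ⟨y, hy1, hy2, hy3⟩ := (hr.and (h1.and h2)).exists
      have h4 : z ≥ 7 / 4 := by rw [h]; norm_num
      rw [lam0_of_ramp y (by linarith) hy2.le] at hy1
      rw [h] at hy3
      linarith
    · exact Or.inr h
  · rintro (h | h)
    · refine ⟨by rw [h]; norm_num, (fixed_iff z).mpr (Or.inl h), ?_, ?_⟩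
      · refine eventually_nhdsWithin_of_forall fun y hy => ?_
        have hy' : y < z := hy
        rw [h] at hy'
        rw [lam0_of_le y (by linarith)]; linarith
      · have h1 : ∀ᶠ y in 𝓝[>] z, y < 1 :=
          (eventually_lt_nhds (by rw [h]; norm_num)).filter_mono nhdsWithin_le_nhds
        have h2 : ∀ᶠ y in 𝓝[>] z, z < y := eventually_nhdsWithin_of_forall fun y hy => hy
        filter_upwards [h1, h2] with y hy1 hy2
        rw [h] at hy2
        rw [lam0_of_le y hy1.le]; linarith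
    · refine ⟨by rw [h]; norm_num, (fixed_iff z).mpr (Or.inr (Or.inr h)), ?_, ?_⟩
      · have h1 : ∀ᶠ y in 𝓝[<] z, 2 < y :=
          (eventually_gt_nhds (by rw [h]; norm_num)).filter_mono nhdsWithin_le_nhds
        have h2 : ∀ᶠ y in 𝓝[<] z, y < z := eventually_nhdsWithin_of_forall fun y hy => hy
        filter_upwards [h1, h2] with y hy1 hy2
        rw [h] at hy2
        rw [lam0_of_ge y (by linarith)]; linarith
      · refine eventually_nhdsWithin_of_forall fun y hy => ?_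
        have hy' : z < y := hy
        rw [h] at hy'
        rw [lam0_of_ge y (by linarith)]; linarith

/-! ### Deterministic analysis of the recursion -/

theorem jumpTime_succ_eq (lam : ℝ → ℝ) (γ : ℝ) (e : ℕ → ℝ) (n : ℕ) (τ s : ℝ) (hτ : 0 ≤ τ) (hs : τ ≤ s)
    (hT : jumpTime lam γ e n = ENNReal.ofReal τ)
    (h1 : e n ≤ ∫ u in τ..s, lam ((n + γ) / (u + 1)))
    (h2 : ∀ t, τ ≤ t → t < s → ∫ u in τ..t, lam ((n + γ) / (u + 1)) < e n) :
    jumpTime lam γ e (n + 1) = ENNReal.ofReal s := by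
  have hs0 : 0 ≤ s := hτ.trans hs
  rw [jumpTime, hT, ENNReal.toReal_ofReal hτ]
  apply le_antisymm
  · have h : (⨅ (t : ℝ≥0) (_ : ENNReal.ofReal τ ≤ t ∧ e n ≤ ∫ u in τ..(t : ℝ), lam ((n + γ) / (u + 1))), (t : ℝ≥0∞))
        ≤ ((s.toNNReal : ℝ≥0) : ℝ≥0∞) := by
      refine iInf₂_le (s.toNNReal) ⟨?_, ?_⟩
      · exact ENNReal.ofReal_le_ofReal hs
      · rw [Real.coe_toNNReal s hs0]; exact h1
    exact h
  · refine le_iInf₂ fun t ht => ?_
    obtain ⟨ht1, ht2⟩ := ht
    by_contra hc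
    push Not at hc
    have ht3 : (t : ℝ) < s := by
      have : (t : ℝ≥0∞) < ((s.toNNReal : ℝ≥0) : ℝ≥0∞) := hc
      rw [ENNReal.coe_lt_coe] at this
      have h5 : (t : ℝ) < (s.toNNReal : ℝ) := by exact_mod_cast this
      rwa [Real.coe_toNNReal s hs0] at h5
    have ht4 : τ ≤ (t : ℝ) := by
      have h6 : ENNReal.ofReal τ ≤ ENNReal.ofReal (t : ℝ) := by
        rw [ENNReal.ofReal_coe_nnreal]; exact ht1
      exact (ENNReal.ofReal_le_ofReal_iff t.2).mp h6
    exact absurd ht2 (not_le.mpr (h2 t ht4 ht3))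

theorem step_fast (γ : ℝ) (e : ℕ → ℝ) (n : ℕ) (τ : ℝ) (hτ : 0 ≤ τ) (he : 0 ≤ e n)
    (hT : jumpTime lam0 γ e n = ENNReal.ofReal τ)
    (h : 15 / 8 * (τ + e n / 1000 + 1) ≤ n + γ) :
    jumpTime lam0 γ e (n + 1) = ENNReal.ofReal (τ + e n / 1000) := by
  have hint : ∀ t, τ ≤ t → t ≤ τ + e n / 1000 →
      ∫ u in τ..t, lam0 ((n + γ) / (u + 1)) = 1000 * (t - τ) := by
    intro t ht1 ht2
    have hc : ∫ u in τ..t, lam0 ((n + γ) / (u + 1)) = ∫ u in τ..t, (1000 : ℝ) := by
      apply intervalIntegral.integral_congr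
      intro u hu
      rw [Set.uIcc_of_le ht1] at hu
      apply lam0_of_ge
      rw [le_div_iff₀ (by linarith [hu.1])]
      have := hu.2
      nlinarith
    rw [hc, intervalIntegral.integral_const, smul_eq_mul]
    ring
  have he' : 0 ≤ e n / 1000 := by positivity
  apply jumpTime_succ_eq lam0 γ e n τ _ hτ (by linarith) hT
  · rw [hint _ (by linarith) le_rfl]
    linarith
  · intro t ht1 ht2
    rw [hint t ht1 ht2.le]
    linarith

theorem path_fast (γ : ℝ) (e : ℕ → ℝ) (m : ℕ) (τ : ℝ) (hτ : 0 ≤ τ) (he : ∀ n, 0 ≤ e n)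
    (hT : jumpTime lam0 γ e m = ENNReal.ofReal τ)
    (h : ∀ k : ℕ, 15 / 8 * (τ + (∑ j ∈ Finset.range (k + 1), e (m + j)) / 1000 + 1) ≤ m + k + γ) (k : ℕ) :
    jumpTime lam0 γ e (m + k) = ENNReal.ofReal (τ + (∑ j ∈ Finset.range k, e (m + j)) / 1000) := by
  induction k with
  | zero => simpa using hT
  | succ k ih =>
    have hk := h k
    rw [Finset.sum_range_succ] at hk
    have hs : 0 ≤ ∑ j ∈ Finset.range k, e (m + j) := Finset.sum_nonneg fun j _ => he _
    have := step_fast γ e (m + k) (τ + (∑ j ∈ Finset.range k, e (m + j)) / 1000) (by positivity) (he _) ih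
      (by push_cast; linarith)
    rw [← add_assoc, this, Finset.sum_range_succ]
    congr 1
    ring

/-- started from `7/4`, the `n+1`-st point comes after time `n + 3/4` -/
theorem slow (e : ℕ → ℝ) (he : ∀ n, 0 < e n) (n : ℕ) :
    ENNReal.ofReal (n + 3 / 4) ≤ jumpTime lam0 (7 / 4) e (n + 1) := by
  induction n with
  | zero =>
    rw [jumpTime]
    refine le_iInf₂ fun t ht => ?_
    obtain ⟨-, ht2⟩ := ht
    by_contra hc
    push Not at hc
    have ht3 : (t : ℝ) < ((0 : ℕ) : ℝ) + 3 / 4 := by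
      rw [← ENNReal.ofReal_coe_nnreal] at hc
      exact (ENNReal.ofReal_lt_ofReal_iff (by positivity)).mp hc
    simp only [jumpTime, ENNReal.toReal_zero] at ht2
    have hz : ∫ u in (0 : ℝ)..(t : ℝ), lam0 (((0 : ℕ) + 7 / 4) / (u + 1)) = ∫ u in (0 : ℝ)..(t : ℝ), (0 : ℝ) := by
      apply intervalIntegral.integral_congr
      intro u hu
      rw [Set.uIcc_of_le (show (0 : ℝ) ≤ (t : ℝ) from t.2)] at hu
      have hu1 := hu.1
      have hu2 := hu.2
      push_cast at ht3
      apply lam0_of_mid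
      · rw [le_div_iff₀ (by linarith)]; push_cast; linarith
      · rw [div_le_iff₀ (by linarith)]; push_cast; linarith
    rw [hz] at ht2
    simp only [intervalIntegral.integral_zero] at ht2
    linarith [he 0]
  | succ n ih =>
    rw [jumpTime]
    refine le_iInf₂ fun t ht => ?_
    obtain ⟨ht1, ht2⟩ := ht
    by_contra hc
    push Not at hc
    have ht3 : (t : ℝ) < ((n + 1 : ℕ) : ℝ) + 3 / 4 := by
      rw [← ENNReal.ofReal_coe_nnreal] at hc
      exact (ENNReal.ofReal_lt_ofReal_iff (by positivity)).mp hc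
    have hfin : jumpTime lam0 (7 / 4) e (n + 1) ≠ ∞ := ne_top_of_le_ne_top ENNReal.coe_ne_top ht1
    set τ := (jumpTime lam0 (7 / 4) e (n + 1)).toReal with hτ
    have hτeq : jumpTime lam0 (7 / 4) e (n + 1) = ENNReal.ofReal τ := (ENNReal.ofReal_toReal hfin).symm
    have hτ1 : (n : ℝ) + 3 / 4 ≤ τ := by
      rw [hτeq] at ih
      exact (ENNReal.ofReal_le_ofReal_iff ENNReal.toReal_nonneg).mp ih
    have hτt : τ ≤ t := by
      rw [hτeq, ← ENNReal.ofReal_coe_nnreal] at ht1
      exact (ENNReal.ofReal_le_ofReal_iff t.2).mp ht1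
    have hn : (0 : ℝ) ≤ n := Nat.cast_nonneg n
    have hz : ∫ u in τ..(t : ℝ), lam0 (((n + 1 : ℕ) + 7 / 4) / (u + 1)) = ∫ u in τ..(t : ℝ), (0 : ℝ) := by
      apply intervalIntegral.integral_congr
      intro u hu
      rw [Set.uIcc_of_le hτt] at hu
      have hu1 := hu.1
      have hu2 := hu.2
      push_cast at ht3
      apply lam0_of_mid
      · rw [le_div_iff₀ (by linarith)]; push_cast; linarith
      · rw [div_le_iff₀ (by linarith)]; push_cast; linarith
    rw [hz] at ht2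
    simp only [intervalIntegral.integral_zero] at ht2
    linarith [he (n + 1)]

/-! ### Counting -/

theorem count_le_of (lam : ℝ → ℝ) (γ : ℝ) (e : ℕ → ℝ) (t : ℝ) (B : ℕ)
    (h : ∀ n : ℕ, jumpTime lam γ e (n + 1) ≤ ENNReal.ofReal t → n < B) :
    count lam γ e t ≤ B := by
  unfold count
  have hsub : {n : ℕ | jumpTime lam γ e (n + 1) ≤ ENNReal.ofReal t} ⊆ (Finset.range B : Set ℕ) := by
    intro n hn
    simpa using h n hn
  refine (Set.encard_le_encard hsub).trans ?_
  rw [Set.encard_coe_eq_coe_finsetCard]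
  simp

theorem le_count_of (lam : ℝ → ℝ) (γ : ℝ) (e : ℕ → ℝ) (t : ℝ) (A B : ℕ)
    (h : ∀ n : ℕ, A ≤ n → n < A + B → jumpTime lam γ e (n + 1) ≤ ENNReal.ofReal t) :
    (B : ℕ∞) ≤ count lam γ e t := by
  unfold count
  have hsub : (Finset.Ico A (A + B) : Set ℕ) ⊆ {n : ℕ | jumpTime lam γ e (n + 1) ≤ ENNReal.ofReal t} := by
    intro n hn
    simp only [Finset.coe_Ico, Set.mem_Ico] at hn
    exact h n hn.1 hn.2
  refine le_trans ?_ (Set.encard_le_encard hsub)
  rw [Set.encard_coe_eq_coe_finsetCard]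
  simp

/-- if the jump times are asymptotically `n / 1000`, then `N_t / t → 1000` -/
theorem count_tendsto (lam : ℝ → ℝ) (γ : ℝ) (e : ℕ → ℝ) (T : ℕ → ℝ)
    (hT : ∀ᶠ n in atTop, jumpTime lam γ e n = ENNReal.ofReal (T n))
    (hlim : Tendsto (fun n : ℕ => T n / n) atTop (𝓝 (1 / 1000))) :
    (∀ t : ℝ, count lam γ e t ≠ ⊤) ∧
    Tendsto (fun t : ℝ => ((count lam γ e t).toNat : ℝ) / t) atTop (𝓝 1000) := by
  -- two-sided bounds, for every tolerance
  have key : ∀ a b : ℝ, 0 < a → a < 1000 → 1000 < b → ∃ n0 : ℕ, ∀ n : ℕ, n0 ≤ n →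
      jumpTime lam γ e n = ENNReal.ofReal (T n) ∧ (n : ℝ) / b < T n ∧ T n < n / a := by
    intro a b ha ha1 hb
    have h1 : 1 / b < 1 / 1000 := one_div_lt_one_div_of_lt (by norm_num) hb
    have h2 : 1 / 1000 < 1 / a := one_div_lt_one_div_of_lt ha ha1
    have h3 := hlim.eventually (lt_mem_nhds h1)
    have h4 := hlim.eventually (gt_mem_nhds h2)
    obtain ⟨n0, hn0⟩ := eventually_atTop.mp ((hT.and (h3.and h4)).and (eventually_gt_atTop 0))
    refine ⟨n0, fun n hn => ?_⟩
    obtain ⟨⟨h5, h6, h7⟩, h8⟩ := hn0 n hn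
    have h8' : (0 : ℝ) < n := by exact_mod_cast h8
    refine ⟨h5, ?_, ?_⟩
    · rw [lt_div_iff₀ h8'] at h6
      calc (n : ℝ) / b = 1 / b * n := by ring
        _ < _ := h6
    · rw [div_lt_iff₀ h8'] at h7
      calc T n < 1 / a * n := h7
        _ = n / a := by ring
  have upper : ∀ a b : ℝ, 0 < a → a < 1000 → 1000 < b → ∃ n0 : ℕ, ∀ t : ℝ, 0 ≤ t →
      count lam γ e t ≤ ((n0 + ⌈b * t⌉₊ : ℕ) : ℕ∞) := by
    intro a b ha ha1 hb
    obtain ⟨n0, hn0⟩ := key a b ha ha1 hb
    refine ⟨n0, fun t ht => ?_⟩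
    apply count_le_of
    intro n hn
    by_contra hc
    push Not at hc
    obtain ⟨h1, h2, -⟩ := hn0 (n + 1) (by omega)
    rw [h1] at hn
    have h3 : T (n + 1) ≤ t := (ENNReal.ofReal_le_ofReal_iff ht).mp hn
    have hb0 : 0 < b := by linarith
    have h4 : ((n + 1 : ℕ) : ℝ) < b * t := by
      rw [div_lt_iff₀ hb0] at h2
      nlinarith
    have h5 : ((n + 1 : ℕ) : ℝ) < (⌈b * t⌉₊ : ℝ) := lt_of_lt_of_le h4 (Nat.le_ceil _)
    have h6 : n + 1 < ⌈b * t⌉₊ := by exact_mod_cast h5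
    omega
  have lower : ∀ a b : ℝ, 0 < a → a < 1000 → 1000 < b → ∃ n0 : ℕ, ∀ t : ℝ, 0 ≤ t →
      ((⌊a * t⌋₊ - n0 - 1 : ℕ) : ℕ∞) ≤ count lam γ e t := by
    intro a b ha ha1 hb
    obtain ⟨n0, hn0⟩ := key a b ha ha1 hb
    refine ⟨n0, fun t ht => ?_⟩
    apply le_count_of lam γ e t n0
    intro n hn1 hn2
    obtain ⟨h1, -, h3⟩ := hn0 (n + 1) (by omega)
    rw [h1]
    apply ENNReal.ofReal_le_ofReal
    have h4 : n + 1 ≤ ⌊a * t⌋₊ := by omega
    have h5 : ((n + 1 : ℕ) : ℝ) ≤ a * t := le_trans (by exact_mod_cast h4) (Nat.floor_le (by positivity))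
    refine h3.le.trans ?_
    rw [div_le_iff₀ ha]
    linarith
  have hfin : ∀ t : ℝ, count lam γ e t ≠ ⊤ := by
    intro t
    obtain ⟨n0, hn0⟩ := upper 1 1001 (by norm_num) (by norm_num) (by norm_num)
    rcases le_or_gt 0 t with ht | ht
    · exact ne_top_of_le_ne_top (ENat.natCast_ne_top _) (hn0 t ht)
    · have h0 : count lam γ e t = count lam γ e 0 := by
        unfold count
        rw [ENNReal.ofReal_of_nonpos ht.le, ENNReal.ofReal_zero]
      rw [h0]
      exact ne_top_of_le_ne_top (ENat.natCast_ne_top _) (hn0 0 le_rfl)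
  refine ⟨hfin, ?_⟩
  rw [Metric.tendsto_atTop]
  intro ε hε
  -- choose tolerance
  set δ : ℝ := min (ε / 2) 1 with hδ
  have hδ0 : 0 < δ := lt_min (by linarith) one_pos
  have hδ1 : δ ≤ ε / 2 := min_le_left _ _
  have hδ2 : δ ≤ 1 := min_le_right _ _
  obtain ⟨n1, hn1⟩ := upper (1000 - δ) (1000 + δ) (by linarith) (by linarith) (by linarith)
  obtain ⟨n2, hn2⟩ := lower (1000 - δ) (1000 + δ) (by linarith) (by linarith) (by linarith)
  refine ⟨max 1 (4 * (n1 + n2 + 3) / ε), fun t ht => ?_⟩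
  have ht1 : 1 ≤ t := le_trans (le_max_left _ _) ht
  have ht2 : 4 * (n1 + n2 + 3) / ε ≤ t := le_trans (le_max_right _ _) ht
  have ht0 : 0 < t := by linarith
  have hu := hn1 t ht0.le
  have hl := hn2 t ht0.le
  obtain ⟨N, hN⟩ : ∃ N : ℕ, count lam γ e t = (N : ℕ∞) := ⟨_, (ENat.natCast_toNat (hfin t)).symm⟩
  rw [hN] at hu hl ⊢
  rw [ENat.toNat_natCast]
  have hu' : N ≤ n1 + ⌈(1000 + δ) * t⌉₊ := by exact_mod_cast hu
  have hl' : ⌊(1000 - δ) * t⌋₊ - n2 - 1 ≤ N := by exact_mod_cast hl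
  have hc : (⌈(1000 + δ) * t⌉₊ : ℝ) < (1000 + δ) * t + 1 := Nat.ceil_lt_add_one (by positivity)
  have hf : (1000 - δ) * t < (⌊(1000 - δ) * t⌋₊ : ℝ) + 1 := Nat.lt_floor_add_one _
  have hu'' : (N : ℝ) ≤ n1 + (⌈(1000 + δ) * t⌉₊ : ℝ) := by exact_mod_cast hu'
  have hl'' : (⌊(1000 - δ) * t⌋₊ : ℝ) ≤ N + n2 + 1 := by
    have : ⌊(1000 - δ) * t⌋₊ ≤ N + n2 + 1 := by omega
    exact_mod_cast this
  have hn1' : (0 : ℝ) ≤ n1 := Nat.cast_nonneg _
  have hn2' : (0 : ℝ) ≤ n2 := Nat.cast_nonneg _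
  have hbig : 4 * ((n1 : ℝ) + n2 + 3) ≤ t * ε := by
    rwa [div_le_iff₀ hε] at ht2
  have hδt : δ * t ≤ ε / 2 * t := mul_le_mul_of_nonneg_right hδ1 ht0.le
  rw [Real.dist_eq, abs_lt]
  constructor
  · have : (1000 - ε) * t < N := by nlinarith
    have h := (lt_div_iff₀ ht0).mpr this
    linarith
  · have : (N : ℝ) < (1000 + ε) * t := by nlinarith
    have h := (div_lt_iff₀ ht0).mpr this
    linarith

/-- the limit `1000` is impossible when the `n+1`-st point comes after time `n + 3/4` for all `n` -/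
theorem no_limit (lam : ℝ → ℝ) (γ : ℝ) (e : ℕ → ℝ)
    (h : ∀ n : ℕ, ENNReal.ofReal (n + 3 / 4) ≤ jumpTime lam γ e (n + 1)) :
    ¬ Tendsto (fun t : ℝ => ((count lam γ e t).toNat : ℝ) / t) atTop (𝓝 1000) := by
  intro hlim
  have h1 : ∀ᶠ t : ℝ in atTop, (2 : ℝ) < ((count lam γ e t).toNat : ℝ) / t :=
    hlim.eventually (lt_mem_nhds (by norm_num))
  obtain ⟨t, ht1, ht2⟩ := (h1.and (eventually_ge_atTop (2 : ℝ))).exists
  have ht0 : 0 < t := by linarith
  rw [lt_div_iff₀ ht0] at ht1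
  have hc : count lam γ e t ≤ ((⌊t⌋₊ + 1 : ℕ) : ℕ∞) := by
    apply count_le_of
    intro n hn
    have h2 := (h n).trans hn
    rw [ENNReal.ofReal_le_ofReal_iff ht0.le] at h2
    have h3 : (n : ℝ) ≤ t := by linarith
    have h4 : n ≤ ⌊t⌋₊ := Nat.le_floor h3
    omega
  have hc' : (count lam γ e t).toNat ≤ ⌊t⌋₊ + 1 := by
    have := ENat.toNat_le_toNat hc (ENat.natCast_ne_top _)
    rwa [ENat.toNat_natCast] at this
  have hc'' : ((count lam γ e t).toNat : ℝ) ≤ (⌊t⌋₊ : ℝ) + 1 := by exact_mod_cast hc'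
  have hf : (⌊t⌋₊ : ℝ) ≤ t := Nat.floor_le ht0.le
  linarith

/-! ### Probabilistic part -/

theorem probExp : IsProbabilityMeasure (expMeasure 1) := isProbabilityMeasure_expMeasure one_pos

theorem probSeq : IsProbabilityMeasure expSeq := by
  have := probExp
  unfold expSeq; infer_instance

theorem map_eval (n : ℕ) : expSeq.map (fun e : ℕ → ℝ => e n) = expMeasure 1 := by
  have := probExp
  exact (measurePreserving_eval_infinitePi (fun _ : ℕ => expMeasure 1) n).map_eq

theorem indep : iIndepFun (fun (n : ℕ) (e : ℕ → ℝ) => e n) expSeq := by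
  have := probExp
  have := probSeq
  rw [iIndepFun_iff_map_fun_eq_infinitePi_map (by fun_prop)]
  have h : (fun i : ℕ => expSeq.map (fun e : ℕ → ℝ => e i)) = fun _ => expMeasure 1 := by
    funext i; exact map_eval i
  rw [h]
  change expSeq.map id = _
  rw [Measure.map_id]; rfl

theorem integral_expMeasure (g : ℝ → ℝ) :
    ∫ x, g x ∂(expMeasure 1) = ∫ x in Set.Ioi 0, Real.exp (-x) * g x := by
  have hd : expMeasure 1 = volume.withDensity (exponentialPDF 1) := rfl
  have hm : Measurable (exponentialPDF 1) := (measurable_exponentialPDFReal 1).ennreal_ofReal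
  rw [hd, integral_withDensity_eq_integral_toReal_smul hm (ae_of_all _ fun x => ENNReal.ofReal_lt_top),
    ← integral_indicator measurableSet_Ioi]
  apply integral_congr_ae
  have h0 : ∀ᵐ x : ℝ, x ≠ 0 := by
    rw [ae_iff]; simp
  filter_upwards [h0] with x hx
  rcases lt_or_gt_of_ne hx with h | h
  · rw [exponentialPDF_of_neg h, Set.indicator_of_notMem (by simp; exact h.le)]
    simp
  · rw [exponentialPDF_of_nonneg h.le, Set.indicator_of_mem (by simpa using h),
      ENNReal.toReal_ofReal (by positivity)]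
    simp

theorem integrable_expMeasure (g : ℝ → ℝ) (_hg : Measurable g)
    (h : IntegrableOn (fun x => Real.exp (-x) * g x) (Set.Ioi 0)) : Integrable g (expMeasure 1) := by
  have hd : expMeasure 1 = volume.withDensity (exponentialPDF 1) := rfl
  have hm : Measurable (exponentialPDF 1) := (measurable_exponentialPDFReal 1).ennreal_ofReal
  rw [hd, integrable_withDensity_iff hm (ae_of_all _ fun x => ENNReal.ofReal_lt_top)]
  rw [← integrable_indicator_iff measurableSet_Ioi] at h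
  refine h.congr ?_
  have h0 : ∀ᵐ x : ℝ, x ≠ 0 := by
    rw [ae_iff]; simp
  filter_upwards [h0] with x hx
  rcases lt_or_gt_of_ne hx with h | h
  · rw [exponentialPDF_of_neg h, Set.indicator_of_notMem (by simp; exact h.le)]
    simp
  · rw [exponentialPDF_of_nonneg h.le, Set.indicator_of_mem (by simpa using h),
      ENNReal.toReal_ofReal (by positivity)]
    simp; ring

theorem integrable_id_exp : Integrable (fun x : ℝ => x) (expMeasure 1) := by
  apply integrable_expMeasure _ measurable_id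
  have := Real.GammaIntegral_convergent (s := 2) (by norm_num)
  refine this.congr_fun ?_ measurableSet_Ioi
  intro x hx
  simp only
  norm_num

theorem mean_exp : ∫ x, x ∂(expMeasure 1) = 1 := by
  rw [integral_expMeasure]
  have h := Real.Gamma_eq_integral (s := 2) (by norm_num)
  have h2 : Real.Gamma 2 = 1 := by
    rw [show (2 : ℝ) = 1 + 1 by norm_num, Real.Gamma_add_one one_ne_zero, Real.Gamma_one]; norm_num
  rw [h2] at h
  rw [h]
  apply setIntegral_congr_fun measurableSet_Ioi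
  intro x hx
  simp only
  norm_num

theorem half_exp : Integrable (fun x : ℝ => Real.exp (1 / 2 * x)) (expMeasure 1) ∧
    ∫ x, Real.exp (1 / 2 * x) ∂(expMeasure 1) = 2 := by
  have e : ∀ x : ℝ, Real.exp (-x) * Real.exp (1 / 2 * x) = Real.exp ((-1 / 2) * x) := by
    intro x; rw [← Real.exp_add]; congr 1; ring
  constructor
  · apply integrable_expMeasure _ (by fun_prop)
    simp_rw [e]
    have := exp_neg_integrableOn_Ioi 0 (show (0 : ℝ) < 1 / 2 by norm_num)
    refine this.congr_fun ?_ measurableSet_Ioi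
    intro x hx
    simp only
    congr 1; ring
  · rw [integral_expMeasure]
    simp_rw [e]
    rw [integral_exp_mul_Ioi (by norm_num)]
    norm_num

theorem exp_Iic (x : ℝ) (hx : 0 ≤ x) : expMeasure 1 (Set.Iic x) = ENNReal.ofReal (1 - Real.exp (-x)) := by
  have hd : expMeasure 1 = volume.withDensity (exponentialPDF 1) := rfl
  rw [hd, withDensity_apply _ measurableSet_Iic, lintegral_exponentialPDF_eq_antiDeriv one_pos, if_pos hx]
  simp

theorem pos_ae : ∀ᵐ e ∂expSeq, ∀ n : ℕ, 0 < e n := by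
  rw [ae_all_iff]
  intro n
  have h1 : expMeasure 1 (Set.Iic 0) = 0 := by rw [exp_Iic 0 le_rfl]; simp
  rw [← map_eval n, Measure.map_apply (measurable_pi_apply n) measurableSet_Iic] at h1
  rw [ae_iff]
  refine measure_mono_null ?_ h1
  intro e he
  simpa using he

theorem ident (n m : ℕ) : IdentDistrib (fun e : ℕ → ℝ => e n) (fun e : ℕ → ℝ => e m) expSeq expSeq where
  aemeasurable_fst := (measurable_pi_apply n).aemeasurable
  aemeasurable_snd := (measurable_pi_apply m).aemeasurable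
  map_eq := by rw [map_eval, map_eval]

theorem slln : ∀ᵐ e ∂expSeq,
    Tendsto (fun n : ℕ => (∑ i ∈ Finset.range n, e i) / (n : ℝ)) atTop (𝓝 (1 : ℝ)) := by
  have hint : Integrable (fun e : ℕ → ℝ => e 0) expSeq := by
    have h := integrable_id_exp
    rw [← map_eval 0] at h
    exact h.comp_measurable (measurable_pi_apply 0)
  have hmean : ∫ e, e 0 ∂expSeq = 1 := by
    have h := mean_exp
    rw [← map_eval 0, integral_map (measurable_pi_apply 0).aemeasurable
      (by fun_prop : AEStronglyMeasurable (fun x : ℝ => x) _)] at h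
    exact h
  have h := strong_law_ae_real (μ := expSeq) (fun n (e : ℕ → ℝ) => e n) hint
    (fun i j hij => indep.indepFun hij) (fun i => ident i 0)
  rw [hmean] at h
  exact h

theorem mgf_half (n : ℕ) : mgf (fun e : ℕ → ℝ => e n) expSeq (1 / 2) = 2 := by
  unfold mgf
  have h := half_exp.2
  rw [← map_eval n, integral_map (measurable_pi_apply n).aemeasurable
    (by fun_prop : AEStronglyMeasurable (fun x : ℝ => Real.exp (1 / 2 * x)) _)] at h
  exact h

theorem tail_bound (m k : ℕ) :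
    expSeq {e | 25 * ((k : ℝ) + 1) ≤ ∑ j ∈ Finset.range (k + 1), e (m + j)} ≤ ENNReal.ofReal ((1 / 4000) ^ (k + 1)) := by
  have := probSeq
  have hind : iIndepFun (fun (j : ℕ) (e : ℕ → ℝ) => e (m + j)) expSeq :=
    indep.precomp (g := fun j => m + j) (fun a b h => by simpa using h)
  have hint : Integrable (fun e : ℕ → ℝ => Real.exp (1 / 2 * (∑ j ∈ Finset.range (k + 1), fun e : ℕ → ℝ => e (m + j)) e)) expSeq := by
    apply hind.integrable_exp_mul_sum (fun j => measurable_pi_apply _)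
    intro j _
    have h := half_exp.1
    rw [← map_eval (m + j)] at h
    exact h.comp_measurable (measurable_pi_apply _)
  have h1 := measure_ge_le_exp_mul_mgf (μ := expSeq)
    (X := ∑ j ∈ Finset.range (k + 1), fun e : ℕ → ℝ => e (m + j)) (t := 1 / 2) (25 * ((k : ℝ) + 1)) (by norm_num) hint
  rw [hind.mgf_sum (fun j => measurable_pi_apply _)] at h1
  simp_rw [mgf_half] at h1
  rw [Finset.prod_const, Finset.card_range] at h1
  have h2 : Real.exp (-(1 / 2) * (25 * ((k : ℝ) + 1))) * 2 ^ (k + 1) ≤ (1 / 4000) ^ (k + 1) := by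
    have h3 : Real.exp (-(1 / 2) * (25 * ((k : ℝ) + 1))) = (Real.exp (-(25 / 2))) ^ (k + 1) := by
      rw [← Real.exp_nat_mul]; congr 1; push_cast; ring
    rw [h3, ← mul_pow]
    apply pow_le_pow_left₀ (by positivity)
    have h4 : (27 / 10 : ℝ) ≤ Real.exp 1 := by
      have := Real.exp_one_gt_d9; linarith
    have h5 : (8000 : ℝ) ≤ Real.exp (25 / 2) := by
      calc (8000 : ℝ) ≤ (27 / 10) ^ 12 := by norm_num
        _ ≤ Real.exp 1 ^ 12 := pow_le_pow_left₀ (by norm_num) h4 12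
        _ = Real.exp 12 := by rw [← Real.exp_nat_mul]; norm_num
        _ ≤ _ := Real.exp_le_exp.mpr (by norm_num)
    rw [Real.exp_neg]
    have h6 : (Real.exp (25 / 2))⁻¹ ≤ (8000 : ℝ)⁻¹ := inv_anti₀ (by norm_num) h5
    linarith
  have h7 : {e : ℕ → ℝ | 25 * ((k : ℝ) + 1) ≤ ∑ j ∈ Finset.range (k + 1), e (m + j)}
      = {e : ℕ → ℝ | 25 * ((k : ℝ) + 1) ≤ (∑ j ∈ Finset.range (k + 1), fun e : ℕ → ℝ => e (m + j)) e} := by
    ext e
    simp only [Set.mem_ofPred_eq, Finset.sum_apply]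
  rw [h7, ← ofReal_measureReal]
  apply ENNReal.ofReal_le_ofReal
  refine h1.trans ?_
  have : (-(1 / 2) : ℝ) = -(1 / 2) := rfl
  exact h2

theorem bad_bound (m : ℕ) :
    expSeq {e | ∃ k : ℕ, 25 * ((k : ℝ) + 1) ≤ ∑ j ∈ Finset.range (k + 1), e (m + j)} ≤ ENNReal.ofReal (1 / 3999) := by
  have h1 : {e : ℕ → ℝ | ∃ k : ℕ, 25 * ((k : ℝ) + 1) ≤ ∑ j ∈ Finset.range (k + 1), e (m + j)}
      = ⋃ k : ℕ, {e | 25 * ((k : ℝ) + 1) ≤ ∑ j ∈ Finset.range (k + 1), e (m + j)} := by
    ext e; simp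
  rw [h1]
  refine (measure_iUnion_le _).trans ?_
  refine (ENNReal.tsum_le_tsum fun k => tail_bound m k).trans ?_
  have hs : HasSum (fun k : ℕ => (1 / 4000 : ℝ) ^ (k + 1)) (1 / 3999) := by
    have := (hasSum_geometric_of_lt_one (r := (1 / 4000 : ℝ)) (by norm_num) (by norm_num)).mul_left (1 / 4000)
    norm_num at this
    refine (HasSum.congr_fun this fun k => ?_)
    rw [pow_succ]; ring
  rw [← ENNReal.ofReal_tsum_of_nonneg (fun k => by positivity) hs.summable, hs.tsum_eq]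

theorem first_small : ENNReal.ofReal (1 / 1281) ≤ expSeq {e | e 0 ≤ 1 / 1280} := by
  have h1 : {e : ℕ → ℝ | e 0 ≤ 1 / 1280} = (fun e : ℕ → ℝ => e 0) ⁻¹' (Set.Iic (1 / 1280)) := rfl
  rw [h1, ← Measure.map_apply (measurable_pi_apply 0) measurableSet_Iic, map_eval, exp_Iic _ (by norm_num)]
  apply ENNReal.ofReal_le_ofReal
  have h2 : 1 + 1 / 1280 ≤ Real.exp (1 / 1280) := by
    have := Real.add_one_le_exp (1 / 1280 : ℝ); linarith
  have h3 : Real.exp (1 / 1280) * Real.exp (-(1 / 1280)) = 1 := by rw [← Real.exp_add]; simp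
  have h4 := Real.exp_pos (-(1 / 1280) : ℝ)
  nlinarith

/-! ### The three initial conditions -/

theorem lim_mid : limProb lam0 1000 (7 / 4) = 0 := by
  unfold limProb
  refine measure_mono_null ?_ (ae_iff.mp pos_ae)
  intro e he
  simp only [Set.mem_ofPred_eq] at he ⊢
  intro hpos
  exact no_limit lam0 (7 / 4) e (fun n => slow e hpos n) he.2

theorem lim_high : 0 < limProb lam0 1000 4 := by
  have := probSeq
  rw [pos_iff_ne_zero]
  intro h0
  unfold limProb at h0
  have hcover : ∀ᵐ e ∂expSeq, e ∈ {e : ℕ → ℝ | ∃ k : ℕ, 25 * ((k : ℝ) + 1) ≤ ∑ j ∈ Finset.range (k + 1), e (0 + j)} := by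
    filter_upwards [pos_ae, slln, measure_eq_zero_iff_ae_notMem.mp h0] with e he1 he2 he3
    by_contra hc
    apply he3
    simp only [Set.mem_ofPred_eq, not_exists, not_le] at hc ⊢
    apply count_tendsto lam0 4 e (fun n => (∑ j ∈ Finset.range n, e j) / 1000)
    · refine Eventually.of_forall fun n => ?_
      have h := path_fast 4 e 0 0 le_rfl (fun n => (he1 n).le) (by simp [jumpTime]) ?_ n
      · simpa using h
      · intro k
        have := hc k
        have hk : (0 : ℝ) ≤ k := Nat.cast_nonneg k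
        push_cast
        linarith
    · have h := he2.div_const 1000
      refine h.congr fun n => ?_
      ring
  have h1 : expSeq Set.univ ≤ ENNReal.ofReal (1 / 3999) := by
    refine le_trans ?_ (bad_bound 0)
    exact measure_mono_ae (by filter_upwards [hcover] with e he _ using he)
  rw [measure_univ] at h1
  have h2 : ENNReal.ofReal (1 / 3999) < 1 := by
    rw [← ENNReal.ofReal_one]
    exact (ENNReal.ofReal_lt_ofReal_iff one_pos).mpr (by norm_num)
  exact absurd h1 (not_le.mpr h2)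

theorem first_jump (e : ℕ → ℝ) (he : e 0 ≤ 1 / 1280) :
    jumpTime lam0 (31 / 32) e 1 ≤ ENNReal.ofReal (1 / 40) := by
  rw [jumpTime]
  have hle : e 0 ≤ ∫ u in (0 : ℝ)..(1 / 40 : ℝ), lam0 (((0 : ℕ) + 31 / 32) / (u + 1)) := by
    have h1 : ∫ u in (0 : ℝ)..(1 / 40 : ℝ), (1 / 32 : ℝ) = 1 / 1280 := by
      rw [intervalIntegral.integral_const]; norm_num
    rw [← h1] at he
    refine he.trans ?_
    apply intervalIntegral.integral_mono_on (by norm_num) (by simp)
    · apply ContinuousOn.intervalIntegrable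
      apply lam0_cont.comp_continuousOn
      apply ContinuousOn.div (by fun_prop) (by fun_prop)
      intro u hu
      rw [Set.uIcc_of_le (by norm_num)] at hu
      have := hu.1
      linarith
    · intro u hu
      have h2 : (((0 : ℕ) : ℝ) + 31 / 32) / (u + 1) ≤ 31 / 32 := by
        rw [div_le_iff₀ (by linarith [hu.1])]
        have := hu.1
        push_cast
        linarith
      rw [lam0_of_le _ (by linarith)]
      linarith
  have h : (⨅ (t : ℝ≥0) (_ : jumpTime lam0 (31 / 32) e 0 ≤ t ∧ e 0 ≤ ∫ u in (jumpTime lam0 (31 / 32) e 0).toReal..(t : ℝ), lam0 (((0 : ℕ) + 31 / 32) / (u + 1))), (t : ℝ≥0∞))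
        ≤ (((1 / 40 : ℝ).toNNReal : ℝ≥0) : ℝ≥0∞) := by
    refine iInf₂_le ((1 / 40 : ℝ).toNNReal) ⟨?_, ?_⟩
    · simp [jumpTime]
    · rw [Real.coe_toNNReal _ (by norm_num)]
      simpa [jumpTime] using hle
  exact h

theorem lim_low : 0 < limProb lam0 1000 (31 / 32) := by
  have := probSeq
  rw [pos_iff_ne_zero]
  intro h0
  unfold limProb at h0
  have hcover : ∀ᵐ e ∂expSeq, e ∈ {e : ℕ → ℝ | e 0 ≤ 1 / 1280} →
      e ∈ {e : ℕ → ℝ | ∃ k : ℕ, 25 * ((k : ℝ) + 1) ≤ ∑ j ∈ Finset.range (k + 1), e (1 + j)} := by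
    filter_upwards [pos_ae, slln, measure_eq_zero_iff_ae_notMem.mp h0] with e he1 he2 he3 he4
    by_contra hc
    apply he3
    simp only [Set.mem_ofPred_eq, not_exists, not_le] at hc he4 ⊢
    have hj := first_jump e he4
    have hfin : jumpTime lam0 (31 / 32) e 1 ≠ ∞ := ne_top_of_le_ne_top ENNReal.ofReal_ne_top hj
    obtain ⟨τ, hτ0, hτ⟩ : ∃ τ : ℝ, 0 ≤ τ ∧ jumpTime lam0 (31 / 32) e 1 = ENNReal.ofReal τ :=
      ⟨_, ENNReal.toReal_nonneg, (ENNReal.ofReal_toReal hfin).symm⟩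
    have hτ1 : τ ≤ 1 / 40 := by
      rw [hτ] at hj
      exact (ENNReal.ofReal_le_ofReal_iff (by norm_num)).mp hj
    apply count_tendsto lam0 (31 / 32) e (fun n => τ + ((∑ j ∈ Finset.range n, e j) - e 0) / 1000)
    · filter_upwards [eventually_ge_atTop 1] with n hn
      obtain ⟨k, rfl⟩ : ∃ k, n = 1 + k := ⟨n - 1, by omega⟩
      have h := path_fast (31 / 32) e 1 τ hτ0 (fun n => (he1 n).le) hτ ?_ k
      · rw [h]
        congr 2
        rw [add_comm 1 k, Finset.sum_range_succ' e k]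
        simp_rw [add_comm 1]
        ring
      · intro k
        have := hc k
        have hk : (0 : ℝ) ≤ k := Nat.cast_nonneg k
        push_cast
        linarith
    · have h1 : Tendsto (fun n : ℕ => (τ - e 0 / 1000) / (n : ℝ)) atTop (𝓝 0) :=
        tendsto_const_div_atTop_nhds_zero_nat _
      have h := (he2.div_const 1000).add h1
      rw [add_zero] at h
      refine h.congr fun n => ?_
      ring
  have h1 : expSeq {e : ℕ → ℝ | e 0 ≤ 1 / 1280} ≤ ENNReal.ofReal (1 / 3999) := by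
    refine le_trans ?_ (bad_bound 1)
    exact measure_mono_ae (by filter_upwards [hcover] with e he using he)
  have h2 := first_small.trans h1
  rw [ENNReal.ofReal_le_ofReal_iff (by norm_num)] at h2
  norm_num at h2

/-- **Counterexample to monotonicity in the initial condition.** -/
theorem result : ∃ (lam : ℝ → ℝ) (x₁ x₂ : ℝ),
    Continuous lam ∧ (∀ z, 0 ≤ lam z) ∧ (∃ C, ∀ z, 0 ≤ z → lam z ≤ C) ∧
    {z | 0 ≤ z ∧ lam z = z}.Finite ∧ 0 < x₁ ∧ x₁ < x₂ ∧ (∀ z, IsStable lam z ↔ z = x₁ ∨ z = x₂) ∧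
    ¬ MonotoneOn (limProb lam x₂) (Set.Ici 0) ∧ ¬ AntitoneOn (limProb lam x₂) (Set.Ici 0) := by
  refine ⟨lam0, 1 / 2, 1000, lam0_cont, lam0_nonneg, ⟨1001, fun z hz => ?_⟩, ?_, by norm_num, by norm_num,
    stable_iff, ?_, ?_⟩
  · unfold lam0
    have h1 : max 0 (1 - z) ≤ 1 := max_le (by norm_num) (by linarith)
    have h2 : min 1000 (max 0 (8000 * (z - 7 / 4))) ≤ 1000 := min_le_left _ _
    linarith
  · apply Set.Finite.subset (s := {1 / 2, 14000 / 7999, 1000}) (by simp)
    rintro z ⟨-, hz⟩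
    simpa using (fixed_iff z).mp hz
  · intro h
    have h1 := h (show (31 / 32 : ℝ) ∈ Set.Ici 0 by norm_num) (show (7 / 4 : ℝ) ∈ Set.Ici 0 by norm_num) (by norm_num)
    rw [lim_mid] at h1
    exact absurd lim_low (not_lt.mpr h1)
  · intro h
    have h1 := h (show (7 / 4 : ℝ) ∈ Set.Ici 0 by norm_num) (show (4 : ℝ) ∈ Set.Ici 0 by norm_num) (by norm_num)
    rw [lim_mid] at h1
    exact absurd lim_high (not_lt.mpr h1)

end Pool.Agent.Results.MP_cbf971_pr.NotMonotone
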